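import Pool.Agent.Lib.UFin.Pts
import Pool.Agent.Lib.UTop.Blk
import Pool.Agent.Lib.UTop.Uni
import Pool.Agent.Lib.UTop.Lad
import Pool.Agent.Lib.UTop.Rng
import Pool.Agent.Lib.UTop.Sts
import Pool.Agent.Lib.UPrep.Gch
import Pool.Agent.Lib.UlB.Fin

/-!
# FoM: the properties of the forcing, except reflection
-/

set_option autoImplicit false
universe u

namespace Pool.Agent.UFin

open Cardinal Pool.Agent.PolF Pool.Agent.UlM Pool.Agent.UTop Pool.Agent.UlB Pool.Agent.UPrep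

/-- the ordinals below `κ` -/
abbrev OO (κ : Cardinal.{u}) : Type u := κ.ord.ToType

/-- the top block -/
abbrev TB {κ : Cardinal.{u}} (dec : OO κ → OO κ → Code (OO κ)) (B : OO κ → OO κ) : Type u :=
  Cn (lP dec B) (mu κ) (KK κ) (JJ κ)

/-- the order of the whole forcing -/
abbrev LL {κ : Cardinal.{u}} (dec : OO κ → OO κ → Code (OO κ)) (B : OO κ → OO κ)
    (e : JJ κ → KK κ × KK κ → Set (↥(Pk dec B) × TB dec B)) :
    ↥(Pk dec B) × TB dec B → ↥(Pk dec B) × TB dec B → Prop :=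
  Lx (pdI (JJ κ)) e Set.univ

variable {κ : Cardinal.{u}} (hκ : κ.IsInaccessible)
  (hG : ∀ c : Cardinal.{u}, ℵ₀ ≤ c → (2 : Cardinal.{u}) ^ c = Order.succ c)
  {dec : OO κ → OO κ → Code (OO κ)} {B : OO κ → OO κ}

include hκ in
theorem pk_le : #↥(Pk dec B) ≤ κ := by
  have h := pk_card (dec := dec) (B := B) (inO_kap hκ)
  rwa [Cardinal.mk_ord_toType] at h

include hκ in
theorem pk_ne : Nonempty ↥(Pk dec B) := by
  refine ⟨⟨fun _ => none, ⟨⟨?_, ?_, ?_⟩, ?_⟩⟩⟩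
  · intro j l a h
    exact absurd h (by simp)
  · intro i hi
    obtain ⟨j, hj⟩ := (ina_lim hi).1
    exact ⟨j, hj, fun k hk _ => absurd rfl hk⟩
  · obtain ⟨b, -⟩ := (inO_kap hκ).bdd ∅ (by
      rw [Cardinal.mk_eq_zero]
      exact Cardinal.aleph0_pos.trans (inO_kap hκ).unc)
    exact ⟨b, fun k hk => absurd rfl hk⟩
  · intro k m a h
    exact absurd h (by simp)

include hκ hG in
theorem topHP : TopH (lP dec B) (KK κ) (mu κ) :=
  topH hκ hG lP_refl lP_trans (pk_ne hκ) (pk_le hκ)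

include hκ hG in
theorem cnNe : Nonempty (TB dec B) := by
  have H : TopH (lP dec B) (KK κ) (mu κ) := topHP hκ hG
  obtain ⟨h0, -⟩ := H.bdd ∅ (by simp)
  have hn : ∀ x t, ¬ Mem (lP dec B) (fun _ : KK κ × (ℕ → KK κ) => (∅ : Set ↥(Pk dec B))) x t := by
    intro x t h
    obtain ⟨r, _, a, ha, _⟩ := h t (H.rf t)
    exact ha
  refine ⟨{ h := h0, cl := {h0}, s := fun _ => ∅, sp := ∅, F := fun _ _ => ∅, hcl := rfl, clh := ?_, cld := ?_, sel := ?_, inc := ?_, hs := ?_, hsp := ?_, out := ?_, lu := ?_ }⟩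
  · rintro x rfl
    exact le_rfl
  · rintro x ⟨y, hy⟩ h
    obtain ⟨z, rfl, h1, h2⟩ := h y hy
    obtain ⟨z', hz', h3, h4⟩ := h z h2
    exact absurd (hz'.symm ▸ h3 : z < z) (lt_irrefl _)
  · rintro δ a ⟨x, hx⟩
    exact hx.elim
  · intro δ a b t h
    exact absurd h (hn _ _)
  · have : IsEmpty {x : KK κ × (ℕ → KK κ) // (∅ : Set ↥(Pk dec B)).Nonempty} :=
      ⟨fun x => Set.not_nonempty_empty x.2⟩
    rw [Cardinal.mk_eq_zero]
    simp
  · simp
  · rintro g ξ ⟨x, hx⟩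
    exact hx.elim
  · intro c
    exact ⟨fun _ => ∅, fun δ a t h => absurd h (hn _ _)⟩

theorem limI_of_lim {K : Type u} [LinearOrder K] {y : K} (h : ∃ a : ℕ → K, Lim a y) : LimI y := by
  obtain ⟨a, h1, h2⟩ := h
  exact ⟨⟨a 0, h1 0⟩, fun b hb => let ⟨n, hn⟩ := h2 b hb; ⟨a n, hn, h1 n⟩⟩

theorem fomc_of_fclub {Q K : Type u} [LinearOrder K] {L : Q → Q → Prop} {C : K → Set Q} {p : Q}
    (h : FClub L C (Set.univ : Set K) p) : FOmc L (fun y => ∃ a : ℕ → K, Lim a y) C p := by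
  refine ⟨fun b q hq => ?_, fun y hy => h.2 y (Set.mem_univ _) (limI_of_lim hy)⟩
  obtain ⟨r, hr, ⟨y, hy⟩, hm⟩ := h.1 b (Set.mem_univ _) q hq
  exact ⟨r, hr, ⟨y, hy.2⟩, hm⟩

include hκ hG in
theorem fo_main (D : DecH dec B) {e : JJ κ → KK κ × KK κ → Set (↥(Pk dec B) × TB dec B)}
    (he : Bk e) {w0 l0 : KK κ} (hw : LimI w0 ∧ ∀ t < w0, ¬ LimI t) (hwl : w0 < l0) (hl : LimI l0)
    (hc : ∃ e : KK κ → KK κ, (∀ i < w0, e i < l0) ∧ ∀ b < l0, ∃ i < w0, b < e i)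
    (hi : ∀ t : KK κ, #(Set.Iio t) ≤ #(Set.Iio l0)) (hl2 : #(Set.Iio l0) = mu κ)
    (hl3 : ∀ t < l0, #(Set.Iio t) < mu κ)
    (hR : ∀ (C : KK κ → Set (↥(Pk dec B) × TB dec B)) (p : ↥(Pk dec B) × TB dec B),
      FClub (LL dec B e) C (Set.univ : Set (KK κ)) p → ∃ q, LL dec B e q p ∧ ∃ b : KK κ, LimI b ∧
        Mem (LL dec B e) C b q ∧ FNcof (LL dec B e) (Set.Iio w0) b q ∧
        FStat (LL dec B e) (SN (mu κ) (lP dec B) (KK κ) (JJ κ)) (Set.Iio b) q) :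
    Fo (LL dec B e) w0 l0 (SN (mu κ) (lP dec B) (KK κ) (JJ κ))
      (AN (mu κ) (lP dec B) (KK κ) (JJ κ)) := by
  have H : TopH (lP dec B) (KK κ) (mu κ) := topHP hκ hG
  have hGm : GamH (JJ κ) (mu κ) := gamH hκ hG
  have hDC : DC (pdI (JJ κ)) (Set.univ : Set (JJ κ)) := fun g _ => Set.subset_univ _
  have hb := blk (e := e) H pdI_H hGm
  have hP : #↥(Pk dec B) < mu κ := H.hP
  have hmul : ∀ c d : Cardinal.{u}, c < mu κ → d < mu κ → c * d < mu κ := fun c d h1 h2 =>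
    Cardinal.mul_lt_of_lt H.inf.le h1 h2
  refine
    { refl := Lx_refl H _
      trans := Lx_trans H pdI_H _ hDC
      ne := ?_
      gch := ?_
      om := hw
      lw := hwl
      ll := hl
      kl := pts_kl hκ.aleph0_lt.le
      cofl := hc
      img := hi
      cardl := ?_
      cardK := ?_
      stat := ?_
      rfl' := hR
      lad := ?_
      unif := ?_ }
  · obtain ⟨p⟩ := pk_ne hκ (dec := dec) (B := B)
    obtain ⟨q⟩ := cnNe hκ hG (dec := dec) (B := B)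
    exact ⟨(p, q)⟩
  · exact gch_two (le := lP dec B) lP_refl lP_trans hb H.inf.le hP.le hG (gch_prep hG (inO_kap hκ) D)
  · intro t ht
    refine nonto H pdI_H _ _ (hl3 t ht).le ?_
    rw [hl2]
    exact hmul _ _ (hl3 t ht) hP
  · intro t
    refine nonto H pdI_H _ _ (H.iio t) ?_
    rw [Cardinal.mk_univ, card_K H]
    refine lt_of_le_of_lt ?_ (Order.lt_succ (mu κ))
    exact (mul_le_mul' (H.iio t) hP.le).trans (Cardinal.mul_eq_self H.inf.le).le
  · intro p C q hq hC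
    obtain ⟨r, hr, y, h1, h2⟩ := sts (e := e) H C q (fomc_of_fclub hC)
    exact ⟨r, hr, y, Set.mem_univ _, h1, h2⟩
  · intro p a ha
    exact lad H pdI_H hw.1 hw.2 p a ha
  · exact uni H hGm he

end Pool.Agent.UFin
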