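import Pool.Agent.Lib.UFin.Typ
import Pool.Agent.Lib.UTop.Lad

/-!
# Pts: the elements `ω` and `λ` of `λ⁺`

PROOF. `K = KK κ` has type `(mu κ)⁺`, a regular uncountable cardinal; it has no largest element. `w0` = the least element with `LimI` (it exists: the supremum of the sequence of
successors of the least element). `UTop.omg` gives a strictly increasing `b : ℕ → K` with range `Iio w0`, so `#(Iio w0) = ℵ₀`. `l0` from `UPrep.ex_card` for `c = mu κ < #K`:
`#(Iio l0) = mu κ`, `#(Iio t) < mu κ` for `t < l0`. `w0 < l0`: `UPrep.lt_of_card`. `LimI l0`: if `a < l0` and nothing is strictly between, then `Iio l0 ⊆ insert a (Iio a)`, of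
cardinality `#(Iio a) + 1 < mu κ`. `e`: for `i = b n` let `e i` be the element with `#(Iio (e i)) = succ^[n] κ` (`ex_card`), `e i < l0` by `lt_mu`; if `b' < l0` then
`#(Iio b') < succ^[n] κ` for some `n` (`mu_cof`), so `b' < e (b n)` (`lt_of_card`). `#(Iio t) ≤ mu κ` for all `t : K`.
-/

set_option autoImplicit false
universe u

namespace Pool.Agent.UFin

open Cardinal Pool.Agent.PolF Pool.Agent.UlM Pool.Agent.UTop Pool.Agent.UlB

private theorem iio_le {κ : Cardinal.{u}} (t : KK κ) : #(Set.Iio t) ≤ mu κ :=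
  Order.lt_succ_iff.1 (Cardinal.mk_Iio_toType_ord_lt t)

private theorem al_mu {κ : Cardinal.{u}} (hκ : ℵ₀ ≤ κ) : ℵ₀ < mu κ :=
  lt_of_le_of_lt hκ (lt_mu κ 0)

theorem pts_kl {κ : Cardinal.{u}} (hκ : ℵ₀ ≤ κ) (a : KK κ) : ∃ b, a < b := by
  by_contra h
  push Not at h
  have h1 : (Set.univ : Set (KK κ)) ⊆ insert a (Set.Iio a) := by
    intro b _
    rcases (h b).lt_or_eq with hb | hb
    · exact Or.inr hb
    · exact Or.inl hb
  have h2 : #(KK κ) ≤ #(Set.Iio a) + 1 := by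
    rw [← Cardinal.mk_univ]
    exact (Cardinal.mk_le_mk_of_subset h1).trans Cardinal.mk_insert_le
  have h3 : #(Set.Iio a) + 1 < Order.succ (mu κ) :=
    Cardinal.add_lt_of_lt ((al_mu hκ).le.trans (Order.le_succ _))
      (Order.lt_succ_iff.2 (iio_le a))
      (Cardinal.one_lt_aleph0.trans_le ((al_mu hκ).le.trans (Order.le_succ _)))
  have h4 : #(KK κ) = Order.succ (mu κ) := Cardinal.mk_ord_toType _
  exact absurd (h2.trans_lt h3) (by rw [h4]; exact lt_irrefl _)

theorem pts {κ : Cardinal.{u}} (hκ : ℵ₀ ≤ κ) : ∃ w0 l0 : KK κ,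
    (LimI w0 ∧ ∀ t < w0, ¬ LimI t) ∧ w0 < l0 ∧ LimI l0 ∧
    (∃ e : KK κ → KK κ, (∀ i < w0, e i < l0) ∧ ∀ b < l0, ∃ i < w0, b < e i) ∧
    (∀ t : KK κ, #(Set.Iio t) ≤ #(Set.Iio l0)) ∧ #(Set.Iio l0) = mu κ ∧
    (∀ t < l0, #(Set.Iio t) < mu κ) ∧ #(Set.Iio w0) = ℵ₀ := by
  have hK : #(KK κ) = Order.succ (mu κ) := Cardinal.mk_ord_toType _
  have hmK : mu κ < #(KK κ) := by rw [hK]; exact Order.lt_succ _
  obtain ⟨l0, hl0, hl1⟩ := UPrep.ex_card (O := KK κ) hmK
  have hL : LimI l0 := by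
    refine ⟨?_, ?_⟩
    · by_contra h
      push Not at h
      have h1 : Set.Iio l0 = ∅ := by
        ext x
        simp only [Set.mem_Iio, Set.mem_empty_iff_false, iff_false]
        exact not_lt.2 (h x)
      rw [h1, Cardinal.mk_eq_zero] at hl0
      exact absurd (al_mu hκ) (by rw [← hl0]; exact not_lt.2 zero_le)
    · intro a ha
      by_contra h
      push Not at h
      have h1 : Set.Iio l0 ⊆ insert a (Set.Iio a) := by
        intro b hb
        rcases lt_trichotomy b a with h2 | h2 | h2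
        · exact Or.inr h2
        · exact Or.inl h2
        · exact absurd hb (not_lt.2 (h b h2))
      have h2 : mu κ ≤ #(Set.Iio a) + 1 :=
        hl0.symm.le.trans ((Cardinal.mk_le_mk_of_subset h1).trans Cardinal.mk_insert_le)
      have h3 : #(Set.Iio a) + 1 < mu κ :=
        Cardinal.add_lt_of_lt (al_mu hκ).le (hl1 a ha)
          (Cardinal.one_lt_aleph0.trans_le (al_mu hκ).le)
      exact absurd h3 (not_lt.2 h2)
  obtain ⟨w0, hw0, hw1⟩ : ∃ w0 : KK κ, LimI w0 ∧ ∀ t < w0, ¬ LimI t := by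
    have hS : {t : KK κ | LimI t}.Nonempty := ⟨l0, hL⟩
    obtain ⟨m, hm, hm'⟩ := (wellFounded_lt (α := KK κ)).has_min {t : KK κ | LimI t} hS
    exact ⟨m, hm, fun t ht h => hm' t h ht⟩
  obtain ⟨b, hb, hbr⟩ := UTop.omg hw0 hw1
  have hc : #(Set.Iio w0) = ℵ₀ := by
    have h1 := Cardinal.mk_range_eq_of_injective hb.injective
    rw [hbr] at h1
    simpa using h1
  have hE : ∀ n : ℕ, ∃ x : KK κ, #(Set.Iio x) = Order.succ^[n] κ := by
    intro n
    obtain ⟨x, hx, -⟩ := UPrep.ex_card (O := KK κ) ((lt_mu κ n).trans hmK)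
    exact ⟨x, hx⟩
  choose E hE using hE
  have hk : ∀ i : KK κ, ∃ n : ℕ, i < w0 → b n = i := by
    intro i
    by_cases hi : i < w0
    · have h1 : i ∈ Set.range b := by rw [hbr]; exact hi
      obtain ⟨n, hn⟩ := h1
      exact ⟨n, fun _ => hn⟩
    · exact ⟨0, fun h => absurd h hi⟩
  choose k hk using hk
  refine ⟨w0, l0, ⟨hw0, hw1⟩, ?_, hL, ⟨fun i => E (k i), ?_, ?_⟩, ?_, hl0, hl1, hc⟩
  · exact UPrep.lt_of_card (by rw [hc, hl0]; exact al_mu hκ)
  · intro i _
    exact UPrep.lt_of_card (by rw [hE, hl0]; exact lt_mu κ _)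
  · intro c hc'
    obtain ⟨n, hn⟩ := mu_cof κ _ (hl1 c hc')
    have hbn : b n < w0 := by
      have : b n ∈ Set.range b := ⟨n, rfl⟩
      rw [hbr] at this
      exact this
    have hkn : k (b n) = n := hb.injective (hk (b n) hbn)
    refine ⟨b n, hbn, ?_⟩
    show c < E (k (b n))
    rw [hkn]
    exact UPrep.lt_of_card (by rw [hE]; exact hn)
  · intro t
    rw [hl0]
    exact iio_le t

end Pool.Agent.UFin
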