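import Pool.Agent.Lib.URf.Main
import Pool.Agent.Lib.UPrep.Dec

/-!
# Thm: the consistency result
-/

set_option autoImplicit false
universe u

namespace Pool.Agent.UFin

open Cardinal Pool.Agent.PolF Pool.Agent.PolB Pool.Agent.UlM Pool.Agent.UlB Pool.Agent.UPrep
  Pool.Agent.UTop Pool.Agent.URf Pool.Agent.Lib.BVM

theorem con {κ : Cardinal.{u}} (hκ : κ.IsInaccessible)
    (hG : ∀ c : Cardinal.{u}, ℵ₀ ≤ c → (2 : Cardinal.{u}) ^ c = Order.succ c)
    {W : Type u} (hW : #W = Order.succ (Order.succ (mu κ)))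
    {U : Ultrafilter (Set W)} (hU : NormalFine κ W U) :
    ∃ (M : Type (u + 1)) (E : M → M → Prop), IsZFC E ∧ IsGCH E ∧ ∃ w l L S A : M,
      IsOmega E w ∧ (IsCard E l ∧ E w l ∧ Cofin E w l) ∧ IsSucc E l L ∧ (∀ a, E a S → E a L) ∧
      IsStat E S L ∧ IsRefl E w S L ∧ IsLadder E w S A ∧ IsUnif E S A := by
  obtain ⟨dec, B, D⟩ := exists_dec (inO_kap hκ)
  have H : TopH (lP dec B) (KK κ) (mu κ) := topHP hκ hG
  obtain ⟨e, he⟩ := enu (J := JJ κ) H (gamH hκ hG)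
  obtain ⟨w0, l0, hw, hwl, hl, hc, hi, hl2, hl3, -⟩ := pts hκ.aleph0_lt.le
  exact model_of_forced (fo_main hκ hG D he hw hwl hl hc hi hl2 hl3
    (fun C p hC => rfl_main hκ hG hW hU D he hw.1 hw.2 C p hC))

end Pool.Agent.UFin
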