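import Pool.Agent.Lib.UPrep.Inf
import Pool.Agent.Lib.UTop.Gam
import Pool.Agent.Lib.UlM.Muc

/-!
# Typ: the well orders of type `κ`, `λ⁺`, `λ⁺⁺`

PROOF. `inO_kap`: `κ` is regular, uncountable and a strong limit (`hκ`); `#(Iio b) < κ` (`Cardinal.mk_Iio_toType_ord_lt` or similar, as in UlM/Kap.lean); a set `S` with `#S < κ = cof`
is bounded, and `κ.ord.ToType` has no largest element (as in PolF or UlM: search for the same fact for `Order.succ` in UlM/Crl.lean).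
`mu_sl`: `mu κ = ⨆ n, succ^[n] κ`; for `c < mu κ` there is `n` with `c < succ^[n] κ`, i.e. `c ≤ succ^[n] κ`, and `2 ^ c ≤ 2 ^ (succ^[n] κ) = succ^[n+1] κ < succ^[n+2] κ ≤ mu κ`
(`Function.iterate_succ_apply'`). `mu_cof`: `l n = succ^[n] κ`. `topH`: `K` has type `(mu κ)⁺`, a regular cardinal; `iio`: `#(Iio b) < succ (mu κ)`; `bdd`: a set of at most
`mu κ` elements is bounded in `K`, strictly (no largest element). `gamH`: the same for `(mu κ)⁺⁺`; `pow` from `hG`.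
-/

set_option autoImplicit false
universe u

namespace Pool.Agent.UFin

open Cardinal Pool.Agent.PolF Pool.Agent.UlM Pool.Agent.UTop

/-- the ordinals below `(λ⁺)` -/
abbrev KK (κ : Cardinal.{u}) : Type u := (Order.succ (mu κ)).ord.ToType

/-- the ordinals below `(λ⁺⁺)` -/
abbrev JJ (κ : Cardinal.{u}) : Type u := (Order.succ (Order.succ (mu κ))).ord.ToType

private theorem typ_bdd {c : Cardinal.{u}} (hc : c.IsRegular) (S : Set c.ord.ToType)
    (hS : #S < c) : ∃ b, ∀ s ∈ S, s < b := by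
  by_contra hcon
  push Not at hcon
  have h1 : IsCofinal S := fun a => by
    obtain ⟨s, hs, h⟩ := hcon a
    exact ⟨s, hs, h⟩
  have h2 := Order.cof_le h1
  rw [Ordinal.cof_toType, hc.cof_ord] at h2
  exact absurd hS (not_lt.mpr h2)

theorem inO_kap {κ : Cardinal.{u}} (hκ : κ.IsInaccessible) : InO κ.ord.ToType := by
  refine ⟨fun S hS => ?_, fun b => ?_, fun c hc => ?_, ?_⟩
  · rw [Cardinal.mk_ord_toType] at hS
    exact typ_bdd hκ.isRegular S hS
  · rw [Cardinal.mk_ord_toType]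
    exact Cardinal.mk_Iio_toType_ord_lt b
  · rw [Cardinal.mk_ord_toType] at hc ⊢
    exact hκ.isStrongLimit.isStrongPrelimit hc
  · rw [Cardinal.mk_ord_toType]
    exact hκ.aleph0_lt

private theorem typ_bddAbove (κ : Cardinal.{u}) :
    BddAbove (Set.range (fun n : ℕ => (Order.succ^[n]) κ)) := Cardinal.bddAbove_of_small

private theorem typ_le_mu (κ : Cardinal.{u}) (n : ℕ) : Order.succ^[n] κ ≤ mu κ :=
  le_ciSup (typ_bddAbove κ) n

private theorem typ_step (κ : Cardinal.{u}) (n : ℕ) :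
    Order.succ^[n] κ < Order.succ^[n + 1] κ := by
  rw [Function.iterate_succ_apply']
  exact Order.lt_succ _

private theorem typ_cof (κ : Cardinal.{u}) {c : Cardinal.{u}} (hc : c < mu κ) :
    ∃ n : ℕ, c < Order.succ^[n] κ := exists_lt_of_lt_ciSup hc

private theorem typ_lt (κ : Cardinal.{u}) (n : ℕ) : Order.succ^[n] κ < mu κ :=
  (typ_step κ n).trans_le (typ_le_mu κ (n + 1))

private theorem typ_inf {κ : Cardinal.{u}} (hκ : ℵ₀ ≤ κ) (n : ℕ) : ℵ₀ ≤ Order.succ^[n] κ := by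
  induction n with
  | zero => exact hκ
  | succ n ih => exact ih.trans (typ_step κ n).le

theorem mu_sl {κ : Cardinal.{u}} (hκ : ℵ₀ ≤ κ)
    (hG : ∀ c : Cardinal.{u}, ℵ₀ ≤ c → (2 : Cardinal.{u}) ^ c = Order.succ c) :
    ∀ c < mu κ, (2 : Cardinal.{u}) ^ c < mu κ := by
  intro c hc
  obtain ⟨n, hn⟩ := typ_cof κ hc
  calc (2 : Cardinal.{u}) ^ c ≤ 2 ^ (Order.succ^[n] κ) :=
        Cardinal.power_le_power_left two_ne_zero hn.le
    _ = Order.succ^[n + 1] κ := by rw [hG _ (typ_inf hκ n), Function.iterate_succ_apply']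
    _ < mu κ := typ_lt κ (n + 1)

theorem mu_cof (κ : Cardinal.{u}) : ∀ c < mu κ, ∃ n : ℕ, c < Order.succ^[n] κ :=
  fun _ hc => typ_cof κ hc

theorem lt_mu (κ : Cardinal.{u}) (n : ℕ) : Order.succ^[n] κ < mu κ := typ_lt κ n

theorem topH {κ : Cardinal.{u}} (hκ : κ.IsInaccessible)
    (hG : ∀ c : Cardinal.{u}, ℵ₀ ≤ c → (2 : Cardinal.{u}) ^ c = Order.succ c)
    {P : Type u} {le : P → P → Prop} (hr : ∀ p, le p p) (ht : ∀ p q r, le p q → le q r → le p r)
    (hne : Nonempty P) (hP : #P ≤ κ) : TopH le (KK κ) (mu κ) := by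
  have hκm : κ < mu κ := lt_mu κ 0
  have hinf : ℵ₀ ≤ mu κ := hκ.aleph0_lt.le.trans hκm.le
  refine ⟨hr, ht, hne, hκ.aleph0_lt.trans hκm, hP.trans_lt hκm, fun b => ?_, fun s hs => ?_,
    mu_sl hκ.aleph0_lt.le hG, ⟨fun n => Order.succ^[n] κ, lt_mu κ, fun c hc => ?_⟩, hG _ hinf⟩
  · exact Order.lt_succ_iff.1 (Cardinal.mk_Iio_toType_ord_lt b)
  · exact typ_bdd (Cardinal.isRegular_succ hinf) s (Order.lt_succ_iff.2 hs)
  · obtain ⟨n, hn⟩ := mu_cof κ c hc
    exact ⟨n, hn.le⟩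

theorem gamH {κ : Cardinal.{u}} (hκ : κ.IsInaccessible)
    (hG : ∀ c : Cardinal.{u}, ℵ₀ ≤ c → (2 : Cardinal.{u}) ^ c = Order.succ c) :
    GamH (JJ κ) (mu κ) := by
  have hκm : κ < mu κ := lt_mu κ 0
  have hinf : ℵ₀ ≤ mu κ := hκ.aleph0_lt.le.trans hκm.le
  have hinf' : ℵ₀ ≤ Order.succ (mu κ) := hinf.trans (Order.le_succ _)
  refine ⟨fun b => ?_, fun s hs => ?_, Cardinal.mk_ord_toType _, hG _ hinf'⟩
  · exact Order.lt_succ_iff.1 (Cardinal.mk_Iio_toType_ord_lt b)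
  · exact typ_bdd (Cardinal.isRegular_succ hinf') s (Order.lt_succ_iff.2 hs)

end Pool.Agent.UFin
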